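import Mathlib
import Pool.Agent.H311.SR.All

/-!
# The slice rank method gives no bound for progressions with differences in `{0,1}^n`

Let `A` be any set of vectors over `Z/m`, `m ≥ 3` (`m = 3` in the problem), and let `f : A³ → K` be a
function that is nonzero at the triples `(x,x,x)` and vanishes at all triples which are not of the
form `(x, x+d, x+2d)` with `d ∈ {0,1}^n`. Then the slice rank of `f` is exactly `|A|`, over every
field, and no choice of bases and weights (`G`-stable rank) gives a bound below `|A|`.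

Reason: the set of these triples is tight: with `α t = A t`, `β t = - A t - A (t-1)`,
`γ t = A (t-1)` one has `α t + β (t+e) + γ (t+2e) = 0` for `e = 0, 1`. For all differences (cap
sets) there are no such injective functions.
-/

open Finset

namespace Pool.Agent.Results.MP_28d996_co.SliceRankBarrier

/-- `f` is a sum of at most `r` slices: products of a function of one of the variables and a
function of the other two -/
def SliceRankLE {X K : Type} [Field K] (f : X → X → X → K) (r : ℕ) : Prop :=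
  ∃ (r₁ r₂ r₃ : ℕ) (g₁ : Fin r₁ → X → K) (h₁ : Fin r₁ → X → X → K)
    (g₂ : Fin r₂ → X → K) (h₂ : Fin r₂ → X → X → K)
    (g₃ : Fin r₃ → X → K) (h₃ : Fin r₃ → X → X → K),
    r₁ + r₂ + r₃ ≤ r ∧ ∀ x y z, f x y z =
      ∑ i, g₁ i x * h₁ i y z + ∑ i, g₂ i y * h₂ i x z + ∑ i, g₃ i z * h₃ i x y

/-- **The slice rank is full.** -/
theorem result (m n : ℕ) (hm : 3 ≤ m) (K : Type) [Field K] (A : Finset (Fin n → ZMod m))
    (f : A → A → A → K) (hdiag : ∀ x, f x x x ≠ 0)
    (hsupp : ∀ x y z : A, f x y z ≠ 0 → ∃ d : Fin n → ZMod m, (∀ i, d i = 0 ∨ d i = 1) ∧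
      (y : Fin n → ZMod m) = x + d ∧ (z : Fin n → ZMod m) = x + d + d) :
    (∀ r : ℕ, SliceRankLE f r ↔ A.card ≤ r) ∧
    ∀ (g₁ g₂ g₃ : A → A → K), LinearIndependent K g₁ → LinearIndependent K g₂ →
      LinearIndependent K g₃ → ∀ (w₁ w₂ w₃ : A → ℝ),
      (∀ s₁ s₂ s₃, w₁ s₁ + w₂ s₂ + w₃ s₃ < 1 →
        ∑ x, ∑ y, ∑ z, f x y z * g₁ s₁ x * g₂ s₂ y * g₃ s₃ z = 0) →
      (A.card : ℝ) ≤ ∑ s, w₁ s + ∑ s, w₂ s + ∑ s, w₃ s :=
  Pool.Agent.H311.SR.final m n hm K A f hdiag hsupp

end Pool.Agent.Results.MP_28d996_co.SliceRankBarrier
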