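import Mathlib
import Pool.Agent.H311.TC.Final

/-!
# The tricoloured version of the problem has no exponential upper bound

A matching is a set `S` of progressions `(x, x + d, x + 2 d)`, `d ∈ {0,1}^n`, such that the first
term of one, the second term of another one and the third term of a third one never form such a
progression, unless the three are equal. The free sets `A` are the matchings `{(x, x, x) | x ∈ A}`.

For cap sets (all differences `d`) the corresponding sets have at most `2.756 ^ n` elements, and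
this is proved together with the bound for cap sets (Ellenberg-Gijswijt, Blasiak et al.). Here there
are matchings of size `3 ^ n exp (- 13 √n)`. So the methods which apply to the tricoloured version
give no exponential upper bound for `δ(n)`.

Proof: the set of these progressions is tight (`α (x_i) + β (y_i) + γ (z_i) = 0` with injective
integer functions), so one can use the hashing of Coppersmith-Winograd and Strassen: take random
`w ∈ (Z/p)^n`, `u, v ∈ Z/p`, `p` a prime between `6 · 2 ^ n` and `12 · 2 ^ n`, and a set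
`B ⊆ Z/p` without progressions (Behrend), and keep the progressions with
`∑ w_i α(x_i) + u ∈ B`, `∑ w_i β(y_i) + v ∈ B`, `(u + v - ∑ w_i γ(z_i)) / 2 ∈ B` which have no
common term (in the same position) with another one.
-/

namespace Pool.Agent.Results.MP_28d996_co.TricolouredVersion

/-- `(x, y, z) = (x, x + d, x + 2 d)` for some vector `d` with entries `0` and `1` (`d = 0` is
allowed) -/
def RAP {n : ℕ} (x y z : Fin n → ZMod 3) : Prop :=
  ∃ d : Fin n → ZMod 3, (∀ i, d i = 0 ∨ d i = 1) ∧ y = x + d ∧ z = x + d + d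

/-- the free sets of the problem -/
def Free {n : ℕ} (A : Finset (Fin n → ZMod 3)) : Prop :=
  ∀ x d : Fin n → ZMod 3, (∀ i, d i = 0 ∨ d i = 1) → d ≠ 0 →
    ¬ (x ∈ A ∧ x + d ∈ A ∧ x + d + d ∈ A)

/-- matchings: sets of progressions such that terms of different ones form no progression -/
def Matching {n : ℕ} (S : Finset ((Fin n → ZMod 3) × (Fin n → ZMod 3) × (Fin n → ZMod 3))) : Prop :=
  (∀ t ∈ S, RAP t.1 t.2.1 t.2.2) ∧
    ∀ s ∈ S, ∀ t ∈ S, ∀ u ∈ S, RAP s.1 t.2.1 u.2.2 → s = t ∧ t = u

/-- **The tricoloured version.** A set is free if and only if its diagonal is a matching; all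
matchings have at most `3 ^ n` elements, and there are matchings with at least
`3 ^ n exp (- 13 √n)` elements. -/
theorem result (n : ℕ) :
    (∀ A : Finset (Fin n → ZMod 3), Free A ↔ Matching (A.image fun x => (x, x, x))) ∧
    (∀ S : Finset ((Fin n → ZMod 3) × (Fin n → ZMod 3) × (Fin n → ZMod 3)),
      Matching S → S.card ≤ 3 ^ n) ∧
    ∃ S : Finset ((Fin n → ZMod 3) × (Fin n → ZMod 3) × (Fin n → ZMod 3)),
      Matching S ∧ (3 : ℝ) ^ n * Real.exp (-13 * √(n : ℝ)) ≤ (S.card : ℝ) := by
  refine ⟨fun A => ⟨fun h => ⟨?_, ?_⟩, fun h x d hd hd0 hx => ?_⟩, fun S hS => ?_, ?_⟩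
  · intro t ht
    obtain ⟨x, -, rfl⟩ := Finset.mem_image.1 ht
    exact ⟨0, fun i => Or.inl rfl, by simp, by simp⟩
  · intro s hs t ht u hu hr
    obtain ⟨a, ha, rfl⟩ := Finset.mem_image.1 hs
    obtain ⟨b, hb, rfl⟩ := Finset.mem_image.1 ht
    obtain ⟨c, hc, rfl⟩ := Finset.mem_image.1 hu
    obtain ⟨d, hd, h1, h2⟩ := hr
    simp only at h1 h2 ⊢
    by_cases hd0 : d = 0
    · subst hd0
      simp only [add_zero] at h1 h2
      rw [h1, h2]
      exact ⟨rfl, rfl⟩
    · exact absurd ⟨ha, h1 ▸ hb, h2 ▸ hc⟩ (h a d hd hd0)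
  · have hm : ∀ y ∈ A, ((y, y, y) : (Fin n → ZMod 3) × (Fin n → ZMod 3) × (Fin n → ZMod 3)) ∈
        A.image fun x => (x, x, x) :=
      fun y hy => Finset.mem_image.2 ⟨y, hy, rfl⟩
    have h1 := (h.2 _ (hm _ hx.1) _ (hm _ hx.2.1) _ (hm _ hx.2.2) ⟨d, hd, rfl, rfl⟩).1
    have h2 : x = x + d := congrArg Prod.fst h1
    exact hd0 (left_eq_add.1 h2)
  · have h1 : S.card ≤ (Finset.univ : Finset (Fin n → ZMod 3)).card := by
      apply Finset.card_le_card_of_injOn (fun t => t.1)
      · intro t _; simp
      · intro s hs t ht hst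
        have h2 := hS.1 t (Finset.mem_coe.1 ht)
        simp only at hst
        rw [← hst] at h2
        exact (hS.2 s (Finset.mem_coe.1 hs) t (Finset.mem_coe.1 ht) t (Finset.mem_coe.1 ht) h2).1
    rwa [Finset.card_univ, Fintype.card_fun, ZMod.card, Fintype.card_fin] at h1
  · rcases Nat.eq_zero_or_pos n with rfl | hn
    · refine ⟨{(default, default, default)}, ⟨?_, ?_⟩, ?_⟩
      · intro t _
        exact ⟨0, fun i => Or.inl rfl, Subsingleton.elim _ _, Subsingleton.elim _ _⟩
      · intro s _ t _ u _ _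
        exact ⟨Subsingleton.elim _ _, Subsingleton.elim _ _⟩
      · simp
    · obtain ⟨S, h1, h2, h3⟩ := Pool.Agent.H311.TC.matching n hn
      exact ⟨S, ⟨h1, h2⟩, h3⟩

end Pool.Agent.Results.MP_28d996_co.TricolouredVersion
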